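import Pool.Agent.Q284.Sync.Defs

/-!
# MP_ab4491_co, Q1: descent counts on even and odd permutations are strongly synchronised
-/

namespace Pool.Agent.Results.MP_ab4491_co.DescentsSynchronised

open Pool.Agent.Q284.Sync

/-- For every positive integer `n` the sequences `(A⁺_{n,k})_{k=0}^{n-1}` and
`(A⁻_{n,k})_{k=0}^{n-1}` are strongly synchronised. -/
theorem result : ∀ n : ℕ, 1 ≤ n → StrongSync (n - 1) (Aplus n) (Aminus n) := by
  intro n hn
  obtain ⟨m, rfl⟩ : ∃ m, n = m + 1 := ⟨n - 1, by omega⟩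
  rw [Nat.add_sub_cancel]
  exact strong_of_syncI m _ _ _ _ (Aplus_eq m) (Aminus_eq m) (sync_main1 m)

end Pool.Agent.Results.MP_ab4491_co.DescentsSynchronised
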